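import Pool.Agent.Helper16.MD.Stmts

open Finset Filter
open scoped ComplexConjugate

namespace Pool.Agent.Helper16.MD

private theorem tal_norm_ed {d : ℕ} [NeZero d] (x : ZMod d) : ‖ed x‖ = 1 := by
  unfold ed
  exact AddChar.norm_apply _ _

private theorem tal_ed_add {d : ℕ} [NeZero d] (x y : ZMod d) : ed (x + y) = ed x * ed y := by
  unfold ed
  exact AddChar.map_add_eq_mul _ _ _

private theorem tal_ed_conj {d : ℕ} [NeZero d] (x : ZMod d) : conj (ed x) = ed (-x) := by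
  unfold ed
  exact (AddChar.map_neg_eq_conj _ _).symm

private theorem tal_ed_zero {d : ℕ} [NeZero d] : ed (0 : ZMod d) = 1 := by
  unfold ed
  exact AddChar.map_zero_eq_one _

private theorem tal_ed_int {d : ℕ} [NeZero d] (j : ℤ) :
    ed ((j : ℤ) : ZMod d) = Complex.exp (2 * Real.pi * Complex.I * j / d) := by
  unfold ed
  exact ZMod.stdAddChar_coe j

/-- Parseval, inequality form -/
private theorem tal_pars {d : ℕ} [NeZero d] (F : ZMod d → ℂ) (hF : ∀ x, ‖F x‖ ≤ 1) :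
    ∑ X : ZMod d, ‖∑ x : ZMod d, F x * ed (-(X * x))‖ ^ 2 ≤ (d : ℝ) ^ 2 := by
  have key : ((∑ X : ZMod d, ‖∑ x : ZMod d, F x * ed (-(X * x))‖ ^ 2 : ℝ) : ℂ) =
      (((d : ℝ) * ∑ x : ZMod d, ‖F x‖ ^ 2 : ℝ) : ℂ) := by
    push_cast
    have h1 : ∀ X : ZMod d, ((‖∑ x : ZMod d, F x * ed (-(X * x))‖ : ℝ) : ℂ) ^ 2 =
        ∑ x : ZMod d, ∑ y : ZMod d, F x * conj (F y) * ed (X * (y - x)) := by
      intro X
      rw [← Complex.mul_conj', map_sum, Finset.sum_mul_sum]
      refine Finset.sum_congr rfl fun x _ => Finset.sum_congr rfl fun y _ => ?_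
      rw [map_mul, tal_ed_conj]
      have : ed (X * (y - x)) = ed (-(X * x)) * ed (-(-(X * y))) := by
        rw [← tal_ed_add]
        congr 1
        ring
      rw [this]
      ring
    simp_rw [h1]
    rw [Finset.sum_comm]
    have h2 : ∀ x : ZMod d, ∑ X : ZMod d, ∑ y : ZMod d, F x * conj (F y) * ed (X * (y - x)) =
        (d : ℂ) * ((‖F x‖ : ℝ) : ℂ) ^ 2 := by
      intro x
      rw [Finset.sum_comm]
      have h3 : ∀ y : ZMod d, ∑ X : ZMod d, F x * conj (F y) * ed (X * (y - x)) =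
          if y = x then F x * conj (F y) * d else 0 := by
        intro y
        rw [← Finset.mul_sum]
        have := AddChar.sum_mulShift (R := ZMod d) (R' := ℂ) (y - x)
          (ZMod.isPrimitive_stdAddChar d)
        unfold ed
        rw [this]
        by_cases h : y = x
        · rw [if_pos (by rw [h, sub_self]), if_pos h, ZMod.card]
        · rw [if_neg (sub_ne_zero.mpr h), if_neg h]
          simp
      simp_rw [h3]
      rw [Finset.sum_ite_eq' Finset.univ x]
      simp only [Finset.mem_univ, if_true]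
      rw [Complex.mul_conj']
      ring
    simp_rw [h2]
    rw [Finset.mul_sum]
  have key' : (∑ X : ZMod d, ‖∑ x : ZMod d, F x * ed (-(X * x))‖ ^ 2 : ℝ) =
      (d : ℝ) * ∑ x : ZMod d, ‖F x‖ ^ 2 := by exact_mod_cast key
  rw [key']
  have h4 : ∑ x : ZMod d, ‖F x‖ ^ 2 ≤ ∑ _x : ZMod d, (1 : ℝ) := by
    refine Finset.sum_le_sum fun x _ => ?_
    exact pow_le_one₀ (norm_nonneg _) (hF x)
  rw [Finset.sum_const, Finset.card_univ, ZMod.card, nsmul_eq_mul, mul_one] at h4
  have hd : (0 : ℝ) ≤ d := Nat.cast_nonneg d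
  nlinarith

private theorem tal_sum_zmod {d : ℕ} [NeZero d] (g : ℕ → ℂ) :
    ∑ x : ZMod d, g x.val = ∑ k ∈ range d, g k := by
  symm
  refine Finset.sum_bij' (fun k _ => ((k : ℕ) : ZMod d)) (fun x _ => x.val) ?_ ?_ ?_ ?_ ?_
  · intro k _; exact Finset.mem_univ _
  · intro x _; exact Finset.mem_range.mpr (ZMod.val_lt x)
  · intro k hk; exact ZMod.val_cast_of_lt (Finset.mem_range.mp hk)
  · intro x _; exact ZMod.natCast_zmod_val x
  · intro k hk; rw [ZMod.val_cast_of_lt (Finset.mem_range.mp hk)]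

private theorem tal_blocks (n Λ : ℕ) (g : ℕ → ℂ) :
    ∑ k ∈ range (n * Λ), g k = ∑ s ∈ range Λ, ∑ r ∈ range n, g (n * s + r) := by
  induction Λ with
  | zero => simp
  | succ L ih => rw [Nat.mul_succ, Finset.sum_range_add, ih, Finset.sum_range_succ]

/-- factorization -/
private theorem tal_fact (n Λ : ℕ) [NeZero (n * Λ)] (hn : 1 ≤ n) (e : ℕ → ℂ)
    (X : ZMod (n * Λ)) :
    hat (fun x => e (x.val / n)) X =
      (∑ s ∈ range Λ, e s * ed (-(X * ((n * s : ℕ) : ZMod (n * Λ))))) *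
        (∑ r ∈ range n, ed (-(X * ((r : ℕ) : ZMod (n * Λ))))) / ((n * Λ : ℕ) : ℂ) := by
  unfold hat
  congr 1
  have h1 : ∀ x : ZMod (n * Λ), e (x.val / n) * ed (-(X * x)) =
      (fun k : ℕ => e (k / n) * ed (-(X * ((k : ℕ) : ZMod (n * Λ))))) x.val := by
    intro x
    simp only
    rw [ZMod.natCast_zmod_val]
  rw [Finset.sum_congr rfl (fun x _ => h1 x),
    tal_sum_zmod (fun k : ℕ => e (k / n) * ed (-(X * ((k : ℕ) : ZMod (n * Λ))))),
    tal_blocks, Finset.sum_mul_sum]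
  refine Finset.sum_congr rfl fun s _ => Finset.sum_congr rfl fun r hr => ?_
  have h2 : (n * s + r) / n = s := by
    rw [Nat.mul_add_div (by omega), Nat.div_eq_of_lt (Finset.mem_range.mp hr), add_zero]
  rw [h2, mul_assoc, ← tal_ed_add]
  congr 2
  push_cast
  ring

/-- the character of the block index -/
private theorem tal_char (n Λ : ℕ) [NeZero (n * Λ)] [NeZero Λ] (hn : 1 ≤ n) (j : ℤ) (s : ℕ) :
    ed (-(((j : ℤ) : ZMod (n * Λ)) * ((n * s : ℕ) : ZMod (n * Λ)))) =
      ed (-(((j : ℤ) : ZMod Λ) * ((s : ℕ) : ZMod Λ))) := by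
  have h1 : (-(((j : ℤ) : ZMod (n * Λ)) * ((n * s : ℕ) : ZMod (n * Λ)))) =
      ((-(j * (n * s)) : ℤ) : ZMod (n * Λ)) := by push_cast; ring
  have h2 : (-(((j : ℤ) : ZMod Λ) * ((s : ℕ) : ZMod Λ))) = ((-(j * s) : ℤ) : ZMod Λ) := by
    push_cast; ring
  rw [h1, h2, tal_ed_int, tal_ed_int]
  congr 1
  have hn' : (n : ℂ) ≠ 0 := by exact_mod_cast (by omega : n ≠ 0)
  have hΛ : (Λ : ℂ) ≠ 0 := by exact_mod_cast (NeZero.ne Λ)
  push_cast
  field_simp

/-- the geometric sum -/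
private theorem tal_geo (n D : ℕ) [NeZero D] (X : ZMod D) (hX : X ≠ 0) :
    ‖∑ r ∈ range n, ed (-(X * ((r : ℕ) : ZMod D)))‖ ≤ (D : ℝ) / (2 * |(X.valMinAbs : ℝ)|) := by
  set j : ℤ := X.valMinAbs with hj
  have hj0 : j ≠ 0 := by rw [hj]; rwa [Ne, ZMod.valMinAbs_eq_zero]
  have hj1 : (0 : ℝ) < |(j : ℝ)| := abs_pos.mpr (by exact_mod_cast hj0)
  have hD : (0 : ℝ) < D := by exact_mod_cast Nat.pos_of_ne_zero (NeZero.ne D)
  have hj2 : 2 * |(j : ℝ)| ≤ D := by
    have h := ZMod.natAbs_valMinAbs_le X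
    rw [← hj] at h
    have h3 : 2 * j.natAbs ≤ D := by omega
    have h4 : ((j.natAbs : ℕ) : ℝ) = |(j : ℝ)| := by
      rw [Nat.cast_natAbs]; push_cast; rfl
    rw [← h4]
    exact_mod_cast h3
  set w : ℂ := ed (-X) with hw
  have hpow : ∀ r : ℕ, ed (-(X * ((r : ℕ) : ZMod D))) = w ^ r := by
    intro r
    induction r with
    | zero => simp [tal_ed_zero]
    | succ m ih =>
      rw [pow_succ, ← ih, hw, ← tal_ed_add]
      congr 1
      push_cast
      ring
  have hwn : ‖w‖ = 1 := tal_norm_ed _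
  have hgeo : (∑ r ∈ range n, w ^ r) * (w - 1) = w ^ n - 1 := geom_sum_mul w n
  have hnum : ‖w ^ n - 1‖ ≤ 2 := by
    calc ‖w ^ n - 1‖ ≤ ‖w ^ n‖ + ‖(1 : ℂ)‖ := norm_sub_le _ _
      _ = 2 := by rw [norm_pow, hwn]; norm_num
  have hw1 : w = Complex.exp (Complex.I * ((-(2 * Real.pi * j / D) : ℝ) : ℂ)) := by
    have h1 : (-X : ZMod D) = ((-j : ℤ) : ZMod D) := by
      rw [Int.cast_neg, hj, ZMod.coe_valMinAbs]
    rw [hw, h1, tal_ed_int]
    congr 1
    push_cast
    ring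
  have hden : 4 * |(j : ℝ)| / D ≤ ‖w - 1‖ := by
    rw [hw1, Complex.norm_exp_I_mul_ofReal_sub_one]
    have h2 : -(2 * Real.pi * j / D) / 2 = -(Real.pi * j / D) := by ring
    rw [h2, Real.sin_neg, Real.norm_eq_abs, mul_neg, abs_neg, abs_mul, abs_two]
    have h5 : |Real.sin (Real.pi * j / D)| = Real.sin (Real.pi * |(j : ℝ)| / D) := by
      have hnn : 0 ≤ Real.sin (Real.pi * |(j : ℝ)| / D) := by
        apply Real.sin_nonneg_of_nonneg_of_le_pi
        · positivity
        · rw [div_le_iff₀ hD]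
          have := Real.pi_pos
          nlinarith
      rcases abs_cases (j : ℝ) with ⟨h, _⟩ | ⟨h, _⟩
      · rw [h] at hnn ⊢
        exact abs_of_nonneg hnn
      · rw [h] at hnn ⊢
        rw [mul_neg, neg_div, Real.sin_neg] at hnn ⊢
        exact abs_of_nonpos (by linarith)
    rw [h5]
    have h6 : 2 / Real.pi * (Real.pi * |(j : ℝ)| / D) ≤ Real.sin (Real.pi * |(j : ℝ)| / D) := by
      apply Real.mul_le_sin
      · positivity
      · rw [div_le_div_iff₀ hD (by norm_num : (0 : ℝ) < 2)]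
        have := Real.pi_pos
        nlinarith
    have h7 : 2 / Real.pi * (Real.pi * |(j : ℝ)| / D) = 2 * |(j : ℝ)| / D := by
      have := Real.pi_pos
      field_simp
    rw [h7] at h6
    have h8 : 4 * |(j : ℝ)| / D = 2 * (2 * |(j : ℝ)| / D) := by ring
    rw [h8]
    linarith
  rw [Finset.sum_congr rfl (fun r _ => hpow r)]
  have h9 : ‖∑ r ∈ range n, w ^ r‖ * ‖w - 1‖ ≤ 2 := by
    rw [← norm_mul, hgeo]; exact hnum
  have h10 : ‖∑ r ∈ range n, w ^ r‖ * (4 * |(j : ℝ)| / D) ≤ 2 :=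
    le_trans (mul_le_mul_of_nonneg_left hden (norm_nonneg _)) h9
  rw [le_div_iff₀ (by positivity)]
  rw [mul_div_assoc', div_le_iff₀ hD] at h10
  linarith

theorem st_TAL : ST_TAL := by
  intro n Λ T _ e hT he hper
  have hD0 : n * Λ ≠ 0 := NeZero.ne _
  have hn : 1 ≤ n := Nat.pos_of_ne_zero (fun h => hD0 (by rw [h, zero_mul]))
  have hΛ : 1 ≤ Λ := Nat.pos_of_ne_zero (fun h => hD0 (by rw [h, mul_zero]))
  have : NeZero Λ := ⟨by omega⟩
  have hnR : (0 : ℝ) < n := by exact_mod_cast hn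
  have hΛR : (0 : ℝ) < Λ := by exact_mod_cast hΛ
  have hnC : (n : ℂ) ≠ 0 := by exact_mod_cast (by omega : n ≠ 0)
  have hΛC : (Λ : ℂ) ≠ 0 := by exact_mod_cast (by omega : Λ ≠ 0)
  have hDR : (0 : ℝ) < ((n * Λ : ℕ) : ℝ) := by exact_mod_cast Nat.pos_of_ne_zero hD0
  refine ⟨?_, ?_, ?_⟩
  · rw [tal_fact n Λ hn]
    simp only [zero_mul, neg_zero, tal_ed_zero, mul_one, Finset.sum_const, Finset.card_range,
      nsmul_eq_mul]
    push_cast
    field_simp
  · have h1 : ∀ X : ZMod (n * Λ), ‖hat (fun x => e (x.val / n)) X‖ ^ 2 =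
        ‖∑ x : ZMod (n * Λ), e (x.val / n) * ed (-(X * x))‖ ^ 2 / ((n * Λ : ℕ) : ℝ) ^ 2 := by
      intro X
      unfold hat
      rw [norm_div, div_pow, Complex.norm_natCast]
    rw [Finset.sum_congr rfl (fun X _ => h1 X), ← Finset.sum_div, div_le_one (by positivity)]
    exact tal_pars _ (fun x => he _)
  · -- the function on `ZMod Λ`
    set G : ZMod Λ → ℝ := fun ξ => ‖∑ s : ZMod Λ, e s.val * ed (-(ξ * s))‖ ^ 2 with hG
    have hG0 : ∀ ξ, 0 ≤ G ξ := fun ξ => by positivity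
    have hGs : ∑ ξ : ZMod Λ, G ξ ≤ (Λ : ℝ) ^ 2 := tal_pars _ (fun x => he _)
    have hA : ∀ X : ZMod (n * Λ),
        ‖∑ s ∈ range Λ, e s * ed (-(X * ((n * s : ℕ) : ZMod (n * Λ))))‖ ^ 2 =
          G ((X.valMinAbs : ℤ) : ZMod Λ) := by
      intro X
      rw [hG]
      simp only
      congr 2
      have h1 : ∀ s : ZMod Λ, e s.val * ed (-(((X.valMinAbs : ℤ) : ZMod Λ) * s)) =
          (fun k : ℕ => e k * ed (-(((X.valMinAbs : ℤ) : ZMod Λ) * ((k : ℕ) : ZMod Λ)))) s.val := by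
        intro s
        simp only
        rw [ZMod.natCast_zmod_val]
      rw [Finset.sum_congr rfl (fun s _ => h1 s),
        tal_sum_zmod (fun k : ℕ => e k * ed (-(((X.valMinAbs : ℤ) : ZMod Λ) *
          ((k : ℕ) : ZMod Λ))))]
      refine Finset.sum_congr rfl fun s _ => ?_
      rw [← tal_char n Λ hn X.valMinAbs s, ZMod.coe_valMinAbs]
    have hpt : ∀ X : ZMod (n * Λ), X ≠ 0 → ‖hat (fun x => e (x.val / n)) X‖ ^ 2 ≤
        G ((X.valMinAbs : ℤ) : ZMod Λ) / (4 * (X.valMinAbs : ℝ) ^ 2) := by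
      intro X hX
      rw [tal_fact n Λ hn, norm_div, norm_mul, div_pow, mul_pow, hA X, Complex.norm_natCast]
      have hg := tal_geo n (n * Λ) X hX
      have hj0 : (X.valMinAbs : ℝ) ≠ 0 := by
        have : X.valMinAbs ≠ 0 := by rwa [Ne, ZMod.valMinAbs_eq_zero]
        exact_mod_cast this
      have hg2 : ‖∑ r ∈ range n, ed (-(X * ((r : ℕ) : ZMod (n * Λ))))‖ ^ 2 ≤
          (((n * Λ : ℕ) : ℝ) / (2 * |(X.valMinAbs : ℝ)|)) ^ 2 :=
        pow_le_pow_left₀ (norm_nonneg _) hg 2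
      rw [div_pow, mul_pow, sq_abs] at hg2
      calc G ((X.valMinAbs : ℤ) : ZMod Λ) *
            ‖∑ r ∈ range n, ed (-(X * ((r : ℕ) : ZMod (n * Λ))))‖ ^ 2 / ((n * Λ : ℕ) : ℝ) ^ 2
          ≤ G ((X.valMinAbs : ℤ) : ZMod Λ) *
            (((n * Λ : ℕ) : ℝ) ^ 2 / (2 ^ 2 * (X.valMinAbs : ℝ) ^ 2)) / ((n * Λ : ℕ) : ℝ) ^ 2 := by
            gcongr
        _ = G ((X.valMinAbs : ℤ) : ZMod Λ) / (4 * (X.valMinAbs : ℝ) ^ 2) := by
            field_simp
            norm_num
    set S : Finset (ZMod (n * Λ)) :=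
      univ.filter (fun X => ((T * Λ : ℕ) : ℤ) < |X.valMinAbs|) with hS
    -- block index
    set b : ZMod (n * Λ) → ℕ := fun X => (X.valMinAbs.natAbs - 1) / Λ with hb
    have hmaps : ∀ X ∈ S, b X ∈ Ioo (T - 1) (n * Λ + 1) := by
      intro X hX
      rw [hS, Finset.mem_filter] at hX
      have h1 : T * Λ < X.valMinAbs.natAbs := by
        have := hX.2
        rw [Int.abs_eq_natAbs] at this
        exact_mod_cast this
      have h2 := ZMod.natAbs_valMinAbs_le X
      rw [Finset.mem_Ioo, hb]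
      simp only
      constructor
      · have : T ≤ (X.valMinAbs.natAbs - 1) / Λ := by
          rw [Nat.le_div_iff_mul_le hΛ]
          omega
        omega
      · have := Nat.div_le_self (X.valMinAbs.natAbs - 1) Λ
        omega
    rw [← Finset.sum_fiberwise_of_maps_to hmaps]
    have hfib : ∀ k ∈ Ioo (T - 1) (n * Λ + 1),
        ∑ X ∈ S.filter (fun X => b X = k), ‖hat (fun x => e (x.val / n)) X‖ ^ 2 ≤
          1 / 2 * ((k : ℝ) ^ 2)⁻¹ := by
      intro k hk
      have hk1 : 1 ≤ k := by rw [Finset.mem_Ioo] at hk; omega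
      have hkR : (0 : ℝ) < k := by exact_mod_cast hk1
      -- facts about members
      have hmem : ∀ X ∈ S.filter (fun X => b X = k), k * Λ < X.valMinAbs.natAbs ∧
          X.valMinAbs.natAbs ≤ (k + 1) * Λ := by
        intro X hX
        rw [Finset.mem_filter, hS, Finset.mem_filter] at hX
        have h1 : T * Λ < X.valMinAbs.natAbs := by
          have := hX.1.2
          rw [Int.abs_eq_natAbs] at this
          exact_mod_cast this
        have h2 : (X.valMinAbs.natAbs - 1) / Λ = k := hX.2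
        rw [Nat.div_eq_iff (by omega)] at h2
        have h3 : (k + 1) * Λ = Λ * k + Λ := by ring
        have h4 : k * Λ = Λ * k := by ring
        constructor
        · omega
        · rw [h3]; omega
      have hterm : ∀ X ∈ S.filter (fun X => b X = k), ‖hat (fun x => e (x.val / n)) X‖ ^ 2 ≤
          G ((X.valMinAbs : ℤ) : ZMod Λ) / (4 * ((k : ℝ) * Λ) ^ 2) := by
        intro X hX
        obtain ⟨h1, _⟩ := hmem X hX
        have hX0 : X ≠ 0 := by
          intro h
          rw [h, ZMod.valMinAbs_zero] at h1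
          simp at h1
        refine (hpt X hX0).trans ?_
        have h2 : (k : ℝ) * Λ ≤ |(X.valMinAbs : ℝ)| := by
          have h4 : ((X.valMinAbs.natAbs : ℕ) : ℝ) = |(X.valMinAbs : ℝ)| := by
            rw [Nat.cast_natAbs]; push_cast; rfl
          rw [← h4]
          exact_mod_cast h1.le
        have h3 : ((k : ℝ) * Λ) ^ 2 ≤ (X.valMinAbs : ℝ) ^ 2 := by
          rw [← sq_abs (X.valMinAbs : ℝ)]
          exact pow_le_pow_left₀ (by positivity) h2 2
        apply div_le_div_of_nonneg_left (hG0 _) (by positivity)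
        linarith
      -- positive and negative parts
      have hpart : ∀ P : Finset (ZMod (n * Λ)),
          (∀ X ∈ P, ∀ Y ∈ P, ((X.valMinAbs : ℤ) : ZMod Λ) = ((Y.valMinAbs : ℤ) : ZMod Λ) →
            X = Y) → ∑ X ∈ P, G ((X.valMinAbs : ℤ) : ZMod Λ) ≤ (Λ : ℝ) ^ 2 := by
        intro P hP
        refine le_trans ?_ hGs
        classical
        rw [← Finset.sum_image (f := G) (g := fun X : ZMod (n * Λ) =>
          ((X.valMinAbs : ℤ) : ZMod Λ)) (fun X hX Y hY h => hP X hX Y hY h)]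
        exact Finset.sum_le_sum_of_subset_of_nonneg (Finset.subset_univ _)
          (fun ξ _ _ => hG0 ξ)
      have hinj : ∀ X Y : ZMod (n * Λ), k * Λ < X.valMinAbs.natAbs →
          X.valMinAbs.natAbs ≤ (k + 1) * Λ → k * Λ < Y.valMinAbs.natAbs →
          Y.valMinAbs.natAbs ≤ (k + 1) * Λ → ((0 < X.valMinAbs) ↔ (0 < Y.valMinAbs)) →
          ((X.valMinAbs : ℤ) : ZMod Λ) = ((Y.valMinAbs : ℤ) : ZMod Λ) → X = Y := by
        intro X Y hx1 hx2 hy1 hy2 hs h
        apply ZMod.injective_valMinAbs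
        rw [ZMod.intCast_eq_intCast_iff_dvd_sub] at h
        have h3 : (k + 1) * Λ = k * Λ + Λ := by ring
        rw [h3] at hx2 hy2
        have hlt : |Y.valMinAbs - X.valMinAbs| < (Λ : ℤ) := by
          rw [abs_lt]
          by_cases hp : 0 < X.valMinAbs
          · have hq := hs.mp hp
            omega
          · have hq : ¬ 0 < Y.valMinAbs := fun hq => hp (hs.mpr hq)
            omega
        have := Int.eq_zero_of_abs_lt_dvd h hlt
        omega
      classical
      have hsplit : ∑ X ∈ S.filter (fun X => b X = k), G ((X.valMinAbs : ℤ) : ZMod Λ) ≤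
          2 * (Λ : ℝ) ^ 2 := by
        rw [← Finset.sum_filter_add_sum_filter_not (S.filter (fun X => b X = k))
          (fun X => 0 < X.valMinAbs)]
        have hA1 := hpart ((S.filter (fun X => b X = k)).filter (fun X => 0 < X.valMinAbs)) (by
          intro X hX Y hY h
          rw [Finset.mem_filter] at hX hY
          obtain ⟨a1, a2⟩ := hmem X hX.1
          obtain ⟨b1, b2⟩ := hmem Y hY.1
          exact hinj X Y a1 a2 b1 b2 ⟨fun _ => hY.2, fun _ => hX.2⟩ h)
        have hA2 := hpart ((S.filter (fun X => b X = k)).filter (fun X => ¬ 0 < X.valMinAbs)) (by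
          intro X hX Y hY h
          rw [Finset.mem_filter] at hX hY
          obtain ⟨a1, a2⟩ := hmem X hX.1
          obtain ⟨b1, b2⟩ := hmem Y hY.1
          exact hinj X Y a1 a2 b1 b2 ⟨fun h => absurd h hX.2, fun h => absurd h hY.2⟩ h)
        linarith
      calc ∑ X ∈ S.filter (fun X => b X = k), ‖hat (fun x => e (x.val / n)) X‖ ^ 2
          ≤ ∑ X ∈ S.filter (fun X => b X = k),
            G ((X.valMinAbs : ℤ) : ZMod Λ) / (4 * ((k : ℝ) * Λ) ^ 2) :=
            Finset.sum_le_sum hterm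
        _ = (∑ X ∈ S.filter (fun X => b X = k), G ((X.valMinAbs : ℤ) : ZMod Λ)) /
            (4 * ((k : ℝ) * Λ) ^ 2) := by rw [Finset.sum_div]
        _ ≤ (2 * (Λ : ℝ) ^ 2) / (4 * ((k : ℝ) * Λ) ^ 2) := by
            gcongr
        _ = 1 / 2 * ((k : ℝ) ^ 2)⁻¹ := by
            field_simp
            norm_num
    refine (Finset.sum_le_sum hfib).trans ?_
    rw [← Finset.mul_sum]
    have h5 := sum_Ioo_inv_sq_le (α := ℝ) (T - 1) (n * Λ + 1)
    have h6 : ((T - 1 : ℕ) : ℝ) + 1 = T := by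
      rw [Nat.cast_sub hT]
      push_cast
      ring
    rw [h6] at h5
    have hTR : (0 : ℝ) < T := by exact_mod_cast hT
    calc 1 / 2 * ∑ i ∈ Ioo (T - 1) (n * Λ + 1), ((i : ℝ) ^ 2)⁻¹ ≤ 1 / 2 * (2 / T) := by
          gcongr
      _ = 1 / T := by ring

end Pool.Agent.Helper16.MD
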